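import Mathlib
import Pool.Agent.R212.CW1
import Pool.Agent.R212.CW2
import Pool.Agent.R212.CW7

/-!
MP_96e154_an: the principle of linearized stability, as posed, fails for
`w_ττ + 5 w_τ = (w w_x)_x + 2 w^2 - 6 w` at the profile `g`.
-/

open Set Filter Topology

namespace Pool.Agent.Results.MP_96e154_an.NoLinearizedStability

open Pool.Agent.R212.CW

/-- The statement asked in Q1: there are a neighbourhood `U` of `(g,0)` in `X` and a
codimension-one `C^1` submanifold `M ⊆ U` through `(g,0)`, transversal to `(g,g)`, such that data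
in `M` close to `(g,0)` admit weak solutions that stay close to `(g,0)` and converge to it. -/
def StabilityQ1 : Prop :=
  ∃ U M : Set XSp, IsOpen U ∧ gX ∈ U ∧ M ⊆ U ∧ gX ∈ M ∧ IsC1Hyp M ∧ TransversalAt M gX ggX ∧
    ∀ ε : ℝ, 0 < ε → ∃ δ : ℝ, 0 < δ ∧ ∀ z0 ∈ M, ‖z0 - gX‖ < δ →
      ∃ z : ℝ → XSp, IsWeakSol z z0 ∧ (∀ τ, 0 ≤ τ → ‖z τ - gX‖ < ε) ∧
        Tendsto (fun τ => ‖z τ - gX‖) atTop (𝓝 0)

/-- Q1 is false. In the strong form: every such `M` contains data arbitrarily close to `(g,0)`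
that admit no weak solution at all. -/
theorem result :
    ¬ StabilityQ1 ∧
    ∀ U M : Set XSp, IsOpen U → gX ∈ U → M ⊆ U → gX ∈ M → IsC1Hyp M → TransversalAt M gX ggX →
      ∀ δ : ℝ, 0 < δ → ∃ z0 ∈ M, ‖z0 - gX‖ < δ ∧ ∀ z : ℝ → XSp, ¬ IsWeakSol z z0 := by
  constructor
  · rintro ⟨U, M, _, _, _, hM, _, hT, h⟩
    obtain ⟨δ, hδ, h2⟩ := h 1 one_pos
    obtain ⟨z0, hz0, hz1, hz2⟩ := no_solution M hM hT hδ
    obtain ⟨z, hz, _⟩ := h2 z0 hz0 hz1
    exact hz2 z hz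
  · intro U M _ _ _ hM _ hT δ hδ
    exact no_solution M hM hT hδ

end Pool.Agent.Results.MP_96e154_an.NoLinearizedStability
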